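import Mathlib
import Pool.Agent.V11259.TreeA

set_option autoImplicit false

/-! # MP_d4551b_al, Q1: the minimal invertible pieces of `r` and of `r ^ k` can differ

`Wd α` are the words over `α ∪ α⁻¹`, `wi` is the formal inverse of a word, and `IM R` is the
inverse monoid `Inv⟨α | R⟩`: the quotient of the words by the congruence generated by `R` and the
Vagner relations (`Pool/Agent/V11259/TreeA.lean`). -/

namespace Pool.Agent.Results.MP_d4551b_al.PiecesDiffer

open Pool.Agent.V11259.TreeMon

/-- The defining relation `w = 1`. -/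
def rel {α : Type} (w : Wd α) : Wd α → Wd α → Prop := fun u v => u = w ∧ v = []

/-- The special one-relator inverse monoid `Inv⟨α | w = 1⟩`. -/
abbrev Inv {α : Type} (w : Wd α) : Type := IM (rel w)

/-- The word `p` represents a unit of `Inv⟨α | w = 1⟩`. -/
def Unital {α : Type} (w p : Wd α) : Prop := IsUnit (mk (rel w) p)

/-- `v` is a minimal invertible piece of `w` in `Inv⟨α | w = 1⟩`: it is one of the factors of `w`
obtained by cutting `w` after exactly those nonempty initial segments which represent units. -/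
def Piece {α : Type} (w v : Wd α) : Prop :=
  ∃ p q : Wd α, w = p ++ v ++ q ∧ v ≠ [] ∧ (p = [] ∨ Unital w p) ∧ Unital w (p ++ v) ∧
    ∀ v₁ v₂ : Wd α, v = v₁ ++ v₂ → v₁ ≠ [] → v₂ ≠ [] → ¬ Unital w (p ++ v₁)

/-- The power `r ^ k` of a word. -/
def pow {α : Type} (r : Wd α) (k : ℕ) : Wd α := (List.replicate k r).flatten

/-- Four letters. -/
inductive L
  | c | d | g | x

/-- The word `c g d g d⁻¹ c⁻¹`. -/
def w0 : Wd L := [(.c, true), (.g, true), (.d, true), (.g, true), (.d, false), (.c, false)]

/-- The word `r = x x⁻¹ · w x⁻¹ · x w⁻¹ · g`. -/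
def r0 : Wd L := [(.x, true), (.x, false)] ++ ((w0 ++ [(.x, false)]) ++ ([(.x, true)] ++ wi w0)) ++
  [(.g, true)]

/-! ### In `Inv⟨r = 1⟩` the letter `x` is a unit -/

theorem unital_x : Unital r0 [(L.x, true)] := by
  set X : IM (rel r0) := mk (rel r0) [(L.x, true)] with hX
  set X' : IM (rel r0) := mk (rel r0) [(L.x, false)] with hX'
  set G : IM (rel r0) := mk (rel r0) [(L.g, true)] with hG
  set G' : IM (rel r0) := mk (rel r0) [(L.g, false)] with hG'
  set C : IM (rel r0) := mk (rel r0) [(L.c, true)] with hC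
  set C' : IM (rel r0) := mk (rel r0) [(L.c, false)] with hC'
  set D : IM (rel r0) := mk (rel r0) [(L.d, true)] with hD
  set D' : IM (rel r0) := mk (rel r0) [(L.d, false)] with hD'
  set W : IM (rel r0) := mk (rel r0) w0 with hW
  set W' : IM (rel r0) := mk (rel r0) (wi w0) with hW'
  have h1 : X * X' * (W * X' * (X * W')) * G = 1 := by
    have : mk (rel r0) r0 = mk (rel r0) [] := mk_eq (Eqv.of ⟨rfl, rfl⟩)
    exact this
  have i1 : X * X' * (X * X') = X * X' := idem_mk (R := rel r0) [(L.x, true)]
  have i2 : W * X' * (X * W') * (W * X' * (X * W')) = W * X' * (X * W') := by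
    have := idem_mk (R := rel r0) (w0 ++ [(L.x, false)])
    exact this
  have i3 := idem_mul i1 i2
  have e1 : X * X' * (W * X' * (X * W')) = 1 := by
    calc X * X' * (W * X' * (X * W'))
        = X * X' * (W * X' * (X * W')) * (X * X' * (W * X' * (X * W')) * G) := by rw [h1, mul_one]
      _ = (X * X' * (W * X' * (X * W')) * (X * X' * (W * X' * (X * W')))) * G := by
          rw [mul_assoc (X * X' * (W * X' * (X * W'))) (X * X' * (W * X' * (X * W'))) G]
      _ = 1 := by rw [i3, h1]
  have g1 : G = 1 := by rw [e1, one_mul] at h1; exact h1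
  have g2 : G' = 1 := by
    have := mki_mk_mki (R := rel r0) [(L.g, true)]
    have h2 := mk_mk_mk (R := rel r0) [(L.g, true)]
    change G * G' * G = G at h2
    rw [g1, one_mul, mul_one] at h2
    exact h2
  have x1 : X * X' = 1 := by
    calc X * X' = X * X' * (X * X' * (W * X' * (X * W'))) := by rw [e1, mul_one]
      _ = (X * X' * (X * X')) * (W * X' * (X * W')) := by rw [mul_assoc (X * X') (X * X')]
      _ = 1 := by rw [i1, e1]
  have e2 : W * X' * (X * W') = 1 := by rw [x1, one_mul] at e1; exact e1
  have w1 : W = C * D * (D' * C') := by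
    have : W = C * (G * (D * (G * (D' * C')))) := rfl
    rw [this, g1, one_mul, one_mul, mul_assoc]
  have w2 : W' = C * D * (D' * C') := by
    have : W' = C * (D * (G' * (D' * (G' * C')))) := rfl
    rw [this, g2, one_mul, one_mul, mul_assoc]
  have i4 : C * D * (D' * C') * (C * D * (D' * C')) = C * D * (D' * C') :=
    idem_mk (R := rel r0) [(L.c, true), (L.d, true)]
  rw [← w1] at i4
  have w3 : W' = W := by rw [w1, w2]
  rw [w3] at e2
  have w4 : W = 1 := by
    calc W = W * (W * X' * (X * W)) := by rw [e2, mul_one]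
      _ = (W * W) * X' * (X * W) := by simp only [mul_assoc]
      _ = 1 := by rw [i4, e2]
  rw [w4, one_mul, mul_one] at e2
  exact ⟨⟨X, X', x1, e2⟩, rfl⟩

/-! ### In `Inv⟨r ^ k = 1⟩` it is not -/

instance : Lab PUnit := { (inferInstance : Monoid PUnit) with
  iv := fun _ => PUnit.unit
  iv_mul := fun _ _ => rfl
  iv_iv := fun _ => rfl
  vag := fun _ => rfl
  comm := fun _ _ => rfl }

section rep

variable {V : Type}

/-- A total function. -/
def tot (f : V → V) : K V PUnit := fun s => some (f s, PUnit.unit)

open Classical in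
/-- Its partial inverse. -/
noncomputable def tinv (f : V → V) : K V PUnit :=
  fun t => if h : ∃ s, f s = t then some (h.choose, PUnit.unit) else none

theorem tinv_apply {f : V → V} (hf : Function.Injective f) (s : V) :
    tinv f (f s) = some (s, PUnit.unit) := by
  have h : ∃ s', f s' = f s := ⟨s, rfl⟩
  rw [tinv, dif_pos h, hf h.choose_spec]

theorem isInv_tot {f : V → V} (hf : Function.Injective f) : IsInv (tot f) (tinv f) := by
  intro s t e
  constructor
  · intro h
    have h' := Option.some.inj h
    rw [Prod.mk.injEq] at h'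
    rw [← h'.1]
    exact tinv_apply hf s
  · intro h
    rw [tinv] at h
    split_ifs at h with h'
    have h2 := Option.some.inj h
    rw [Prod.mk.injEq] at h2
    rw [← h2.1, tot, h'.choose_spec]

theorem tot_mul (f g : V → V) : tot f * tot g = tot (fun s => g (f s)) := by
  funext s
  rfl

theorem tot_mul_apply (f : V → V) (g : K V PUnit) (s : V) : (tot f * g) s = g (f s) := by
  rw [K.mul_some (s1 := f s) (e1 := PUnit.unit) rfl]
  rcases g (f s) with _ | ⟨a, b⟩ <;> rfl

theorem mul_apply_of {f : K V PUnit} {s t : V} (h : f s = some (t, PUnit.unit))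
    (g : K V PUnit) : (f * g) s = g t := by
  rw [K.mul_some h]
  rcases g t with _ | ⟨a, b⟩ <;> rfl

end rep

section model

variable (k : ℕ) [NeZero k] (hk : 2 ≤ k)

/-- The points. -/
abbrev V : Type := ℕ × Fin k

/-- The action of `g`: a permutation of order `k`. -/
def gF (v : V k) : V k := (v.1, v.2 + 1)

/-- The coding of the points by natural numbers. -/
def cod : V k ≃ ℕ := (Nat.divModEquiv k).symm

/-- The action of `c`. -/
def cF (v : V k) : V k := (cod k v, 0)

/-- The action of `d⁻¹`. -/
def dF (v : V k) : V k :=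
  if v.2 = 0 then (v.1, 1) else if v.2 = 1 then (v.1 + 1, 0) else v

/-- The action of `x`: a shift. -/
def xF (v : V k) : V k := (cod k).symm (cod k v + 1)

theorem gF_inj : Function.Injective (gF k) := by
  rintro ⟨a, b⟩ ⟨a', b'⟩ h
  simp only [gF, Prod.mk.injEq] at h
  rw [h.1, add_right_cancel h.2]

theorem cF_inj : Function.Injective (cF k) := by
  intro v v' h
  simp only [cF, Prod.mk.injEq, and_true] at h
  exact (cod k).injective h

theorem xF_inj : Function.Injective (xF k) := by
  intro v v' h
  have := (cod k).symm.injective h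
  exact (cod k).injective (by omega)

include hk in
theorem one_ne : (1 : Fin k) ≠ 0 := by
  intro h
  rw [Fin.one_eq_zero_iff] at h
  omega

include hk in
theorem dF_inj : Function.Injective (dF k) := by
  have h10 := one_ne k hk
  rintro ⟨a, b⟩ ⟨a', b'⟩ h
  simp only [dF] at h
  by_cases h1 : b = 0
  · by_cases h1' : b' = 0
    · rw [if_pos h1, if_pos h1', Prod.mk.injEq] at h
      rw [h.1, h1, h1']
    · rw [if_pos h1, if_neg h1'] at h
      by_cases h2' : b' = 1
      · rw [if_pos h2', Prod.mk.injEq] at h
        exact absurd h.2 h10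
      · rw [if_neg h2', Prod.mk.injEq] at h
        exact absurd h.2.symm h2'
  · by_cases h1' : b' = 0
    · rw [if_neg h1, if_pos h1'] at h
      by_cases h2 : b = 1
      · rw [if_pos h2, Prod.mk.injEq] at h
        exact absurd h.2.symm h10
      · rw [if_neg h2, Prod.mk.injEq] at h
        exact absurd h.2 h2
    · rw [if_neg h1, if_neg h1'] at h
      by_cases h2 : b = 1
      · by_cases h2' : b' = 1
        · rw [if_pos h2, if_pos h2', Prod.mk.injEq] at h
          have : a = a' := by omega
          rw [this, h2, h2']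
        · rw [if_pos h2, if_neg h2', Prod.mk.injEq] at h
          exact absurd h.2.symm h1'
      · by_cases h2' : b' = 1
        · rw [if_neg h2, if_pos h2', Prod.mk.injEq] at h
          exact absurd h.2 h1
        · rw [if_neg h2, if_neg h2'] at h
          exact h

/-- The representation. -/
noncomputable def vr : L × Bool → K (V k) PUnit
  | (.c, true) => tot (cF k)
  | (.c, false) => tinv (cF k)
  | (.d, true) => tinv (dF k)
  | (.d, false) => tot (dF k)
  | (.g, true) => tot (gF k)
  | (.g, false) => tinv (gF k)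
  | (.x, true) => tot (xF k)
  | (.x, false) => tinv (xF k)

include hk in
theorem vr_inv (a : L) : IsInv (vr k (a, true)) (vr k (a, false)) := by
  cases a with
  | c => exact isInv_tot (cF_inj k)
  | d => exact (isInv_tot (dF_inj k hk)).symm
  | g => exact isInv_tot (gF_inj k)
  | x => exact isInv_tot (xF_inj k)

include hk in
theorem ev_w (v : V k) : ev (vr k) w0 v = some (xF k v, PUnit.unit) := by
  have h10 := one_ne k hk
  have e : ev (vr k) w0 = tot (cF k) * (tot (gF k) * (tinv (dF k) * (tot (gF k) *
      (tot (dF k) * tinv (cF k))))) := by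
    simp only [w0, ev_cons, ev_nil, mul_one, vr]
  rw [e, tot_mul_apply, tot_mul_apply]
  have h1 : gF k (cF k v) = dF k (cod k v, 0) := by
    simp [gF, cF, dF]
  rw [h1, mul_apply_of (tinv_apply (dF_inj k hk) _), tot_mul_apply, tot_mul_apply]
  have h2 : dF k (gF k (cod k v, 0)) = cF k (xF k v) := by
    simp [gF, cF, dF, xF, h10]
  rw [h2, tinv_apply (cF_inj k)]

include hk in
theorem ev_w_inv (v : V k) : ev (vr k) (wi w0) (xF k v) = some (v, PUnit.unit) :=
  (ev_isInv (vr_inv k hk) w0 _ _ _).mp (ev_w k hk v)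

include hk in
theorem ev_r : ev (vr k) r0 = tot (gF k) := by
  funext v
  have e : ev (vr k) r0 = tot (xF k) * (tinv (xF k) * (ev (vr k) w0 * (tinv (xF k) *
      (tot (xF k) * (ev (vr k) (wi w0) * tot (gF k)))))) := by
    simp only [r0, ev_append, ev_cons, ev_nil, mul_one, vr, mul_assoc]
  rw [e, tot_mul_apply, mul_apply_of (tinv_apply (xF_inj k) _), mul_apply_of (ev_w k hk v),
    mul_apply_of (tinv_apply (xF_inj k) _), tot_mul_apply, mul_apply_of (ev_w_inv k hk v)]

theorem tot_pow (n : ℕ) : ∀ v : V k, ((tot (gF k)) ^ n) v =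
    some ((v.1, v.2 + n • (1 : Fin k)), PUnit.unit) := by
  induction n with
  | zero =>
    intro v
    rw [pow_zero, K.one_eq, zero_nsmul, add_zero]
  | succ n ih =>
    intro v
    rw [pow_succ, mul_apply_of (ih v), tot, gF, succ_nsmul, add_assoc]

omit [NeZero k] in
theorem ev_pow {α : Type} (v : α × Bool → K (V k) PUnit) (r : Wd α) (n : ℕ) :
    ev v (pow r n) = (ev v r) ^ n := by
  induction n with
  | zero => rfl
  | succ n ih =>
    rw [pow, List.replicate_succ, List.flatten_cons, ev_append, pow_succ']
    rw [pow] at ih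
    rw [ih]

include hk in
theorem ev_rel : ∀ u w, rel (pow r0 k) u w → ev (vr k) u = ev (vr k) w := by
  rintro u w ⟨rfl, rfl⟩
  rw [ev_pow, ev_r k hk, ev_nil]
  funext v
  have hc : k • (1 : Fin k) = 0 := by
    have := card_nsmul_eq_zero (x := (1 : Fin k))
    rwa [Fintype.card_fin] at this
  rw [tot_pow, hc, add_zero]
  rfl

include hk in
theorem not_unital_x : ¬ Unital (pow r0 k) [(L.x, true)] := by
  rintro ⟨⟨a, b, h1, h2⟩, h3⟩
  simp only at h3
  obtain ⟨u, rfl⟩ := mk_surj b
  rw [h3] at h2
  have h4 : Eqv (rel (pow r0 k)) (u ++ [(L.x, true)]) [] := mk_exact h2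
  have h5 := ev_eqv (vr_inv k hk) (ev_rel k hk) h4
  rw [ev_append, ev_nil] at h5
  have h6 := congrFun h5 ((cod k).symm 0)
  rw [K.one_eq, K.mul_eq_some] at h6
  obtain ⟨t, _, _, _, h7, _⟩ := h6
  have h8 : ev (vr k) [(L.x, true)] = tot (xF k) := by
    rw [ev_cons, ev_nil, mul_one]
    rfl
  rw [h8] at h7
  have h9 := Option.some.inj h7
  rw [Prod.mk.injEq] at h9
  have h10 := (cod k).symm.injective h9.1
  omega

end model

/-- **Answer to Q1: no.** There is a word `r` over four letters and their inverses such that for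
every `k ≥ 2` the set of the minimal invertible pieces of `r ^ k` in `Inv⟨A | r ^ k = 1⟩` is not
the set of the minimal invertible pieces of `r` in `Inv⟨A | r = 1⟩`: a single letter `a` is a
minimal invertible piece of `r`, and does not represent a unit of `Inv⟨A | r ^ k = 1⟩`. -/
theorem result : ∃ r : Wd L, r ≠ [] ∧ ∃ a : L, Piece r [(a, true)] ∧
    ∀ k : ℕ, 2 ≤ k → ¬ Unital (pow r k) [(a, true)] ∧
      {v | Piece (pow r k) v} ≠ {v | Piece r v} := by
  have hp : Piece r0 [(L.x, true)] := by
    refine ⟨[], (L.x, false) :: ((w0 ++ [(.x, false)]) ++ ([(.x, true)] ++ wi w0)) ++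
      [(.g, true)], rfl, by simp, Or.inl rfl, unital_x, ?_⟩
    intro v₁ v₂ h h1 h2
    have := congrArg List.length h
    rw [List.length_append, List.length_singleton] at this
    have l1 := List.length_pos_iff.mpr h1
    have l2 := List.length_pos_iff.mpr h2
    omega
  refine ⟨r0, by simp [r0], L.x, hp, fun k hk => ?_⟩
  have : NeZero k := ⟨by omega⟩
  have hn := not_unital_x k hk
  refine ⟨hn, fun h => ?_⟩
  have h1 : Piece (pow r0 k) [(L.x, true)] := by
    have : [(L.x, true)] ∈ {v | Piece (pow r0 k) v} := by rw [h]; exact hp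
    exact this
  obtain ⟨p, q, -, -, hp1, hp2, -⟩ := h1
  apply hn
  have hp3 : Unital (pow r0 k) p := by
    rcases hp1 with rfl | hp1
    · exact isUnit_one
    · exact hp1
  obtain ⟨a, ha⟩ := hp3
  obtain ⟨b, hb⟩ := hp2
  have h2 : (b : IM (rel (pow r0 k))) = a * mk (rel (pow r0 k)) [(L.x, true)] := by
    rw [ha, hb, mk_append]
  have h3 : mk (rel (pow r0 k)) [(L.x, true)] = ((a⁻¹ * b : (IM (rel (pow r0 k)))ˣ) : IM _) := by
    rw [Units.val_mul, h2, ← mul_assoc, Units.inv_mul, one_mul]
  unfold Unital
  rw [h3]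
  exact (a⁻¹ * b).isUnit

end Pool.Agent.Results.MP_d4551b_al.PiecesDiffer
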